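import Mathlib

/-!
# Two-complexes, non-positive immersions, the second L2 Betti number

The definitions for the question whether non-positive immersions are equivalent to the vanishing of
the second L2 Betti number for compact aspherical two-complexes.
-/

set_option autoImplicit false

open scoped ENNReal InnerProductSpace

namespace Pool.Agent.ZH17.NPI

/-- The list `l` of signed edges is an edge path from `u` to `v`: the signed edge `(e, true)` is `e`
traversed from `src e` to `tgt e`, and `(e, false)` is `e` traversed from `tgt e` to `src e`. -/
def IsEdgePath {V E : Type} (src tgt : E → V) : V → List (E × Bool) → V → Prop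
  | u, [], v => u = v
  | u, (e, true) :: l, v => u = src e ∧ IsEdgePath src tgt (tgt e) l v
  | u, (e, false) :: l, v => u = tgt e ∧ IsEdgePath src tgt (src e) l v

/-- A combinatorial 2-dimensional CW complex with vertices `V`, (oriented) edges `E` and 2-cells `F`;
the 2-cell `f` is a polygon attached along the nonempty closed edge path `bd f`. -/
structure TwoComplex where
  V : Type
  E : Type
  F : Type
  src : E → V
  tgt : E → V
  bd : F → List (E × Bool)
  bd_ne_nil : ∀ f, bd f ≠ []
  bd_closed : ∀ f, ∃ v, IsEdgePath src tgt v (bd f) v

namespace TwoComplex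

/-- `l` is an edge path of `X` from `u` to `v`. -/
def IsPath (X : TwoComplex) (u : X.V) (l : List (X.E × Bool)) (v : X.V) : Prop :=
  IsEdgePath X.src X.tgt u l v

/-- `X` is connected (and nonempty). -/
def Connected (X : TwoComplex) : Prop :=
  Nonempty X.V ∧ ∀ u v : X.V, ∃ l, X.IsPath u l v

/-- `X` is compact: it has finitely many cells. -/
def Compact (X : TwoComplex) : Prop := Finite X.V ∧ Finite X.E ∧ Finite X.F

/-- The Euler characteristic. -/
noncomputable def euler (X : TwoComplex) : ℤ :=
  (Nat.card X.V : ℤ) - Nat.card X.E + Nat.card X.F

/-- Elementary homotopies: deleting a backtracking, deleting the boundary path of a 2-cell. -/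
inductive Move (X : TwoComplex) : List (X.E × Bool) → List (X.E × Bool) → Prop
  | back (a b : List (X.E × Bool)) (e : X.E) (s : Bool) :
      Move X (a ++ (e, s) :: (e, !s) :: b) (a ++ b)
  | face (a b : List (X.E × Bool)) (f : X.F) : Move X (a ++ X.bd f ++ b) (a ++ b)

/-- Homotopy relative to the endpoints of edge paths from `u` to `v`: the equivalence relation
generated by the elementary homotopies between edge paths from `u` to `v`. -/
def Homotopic (X : TwoComplex) (u v : X.V) : List (X.E × Bool) → List (X.E × Bool) → Prop :=
  Relation.EqvGen fun l l' => X.IsPath u l v ∧ X.IsPath u l' v ∧ X.Move l l'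

/-- The fundamental group is trivial (at every vertex): every closed edge path is homotopic to the
constant path. -/
def TrivialPi1 (X : TwoComplex) : Prop :=
  ∀ (v : X.V) (l : List (X.E × Bool)), X.IsPath v l v → X.Homotopic v v l []

/-- `X` is simply connected. -/
def SimplyConnected (X : TwoComplex) : Prop := X.Connected ∧ X.TrivialPi1

open Classical in
/-- The incidence number of the 2-cell `f` and the edge `e`: the number of times the boundary path
of `f` traverses `e` in the positive direction minus the number of times it traverses `e` in the
negative direction. -/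
noncomputable def inc (X : TwoComplex) (f : X.F) (e : X.E) : ℤ :=
  ((X.bd f).map fun z => if z.1 = e then (if z.2 then 1 else -1) else 0).sum

/-- `H₂(X; ℤ) = 0`: every integral cellular 2-cycle is zero (there are no 3-cells). -/
def TrivialH2 (X : TwoComplex) : Prop :=
  ∀ c : X.F →₀ ℤ, (∀ e : X.E, (c.sum fun f n => n * X.inc f e) = 0) → c = 0

/-- `X` is contractible: simply connected with `H₂(X; ℤ) = 0` (for a 2-dimensional complex this is
equivalent to contractibility by the theorems of Hurewicz and Whitehead). -/
def Contractible (X : TwoComplex) : Prop := X.SimplyConnected ∧ X.TrivialH2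

/-- A combinatorial map from `Y` to `X`: it sends vertices to vertices, edges to edges and 2-cells
to 2-cells, and respects endpoints and boundary paths.  (The orientations of the edges and the
starting points and orientations of the boundary paths of the 2-cells of `Y` are those pulled back
from `X`.) -/
structure Hom (Y X : TwoComplex) where
  v : Y.V → X.V
  e : Y.E → X.E
  f : Y.F → X.F
  src_comm : ∀ a, X.src (e a) = v (Y.src a)
  tgt_comm : ∀ a, X.tgt (e a) = v (Y.tgt a)
  bd_comm : ∀ c, X.bd (f c) = (Y.bd c).map fun z => (e z.1, z.2)

/-- A combinatorial immersion: a combinatorial map that is locally injective, that is, no two edges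
with the same origin (or the same end) have the same image, and no two 2-cells with the same image
have the same edge at the same place of their boundary paths. -/
def Hom.IsImmersion {Y X : TwoComplex} (φ : Hom Y X) : Prop :=
  (∀ a b, Y.src a = Y.src b → φ.e a = φ.e b → a = b) ∧
  (∀ a b, Y.tgt a = Y.tgt b → φ.e a = φ.e b → a = b) ∧
  ∀ c d, φ.f c = φ.f d → ∀ i < (Y.bd c).length, (Y.bd c)[i]? = (Y.bd d)[i]? → c = d

/-- A covering map: an immersion with the unique lifting property for edges and for the boundary
paths of 2-cells. -/
def Hom.IsCovering {Y X : TwoComplex} (φ : Hom Y X) : Prop :=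
  φ.IsImmersion ∧
  (∀ (u : Y.V) (b : X.E), X.src b = φ.v u → ∃ a, Y.src a = u ∧ φ.e a = b) ∧
  (∀ (u : Y.V) (b : X.E), X.tgt b = φ.v u → ∃ a, Y.tgt a = u ∧ φ.e a = b) ∧
  ∀ (u : Y.V) (d : X.F), X.IsPath (φ.v u) (X.bd d) (φ.v u) →
    ∃ c, φ.f c = d ∧ Y.IsPath u (Y.bd c) u

/-- A universal covering: a covering by a simply connected complex. -/
def Hom.IsUniversalCovering {Y X : TwoComplex} (φ : Hom Y X) : Prop :=
  φ.IsCovering ∧ Y.SimplyConnected

/-- `X` is aspherical: its universal covering is contractible. -/
def Aspherical (X : TwoComplex) : Prop :=
  ∃ (Y : TwoComplex) (φ : Hom Y X), φ.IsUniversalCovering ∧ Y.Contractible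

/-- The Hilbert space `ℓ²(Y.F)` of the square-summable complex 2-chains of `Y`. -/
abbrev L2Chains (Y : TwoComplex) : Type := lp (fun _ : Y.F => ℂ) 2

/-- The square-summable 2-cycles. -/
def l2CycleSet (Y : TwoComplex) : Set Y.L2Chains :=
  {c | ∀ e : Y.E, ∑' f, (Y.inc f e : ℂ) * c f = 0}

/-- The closed subspace of `ℓ²(Y.F)` spanned by the square-summable 2-cycles (for a locally finite
complex, such as a covering of a compact one, the 2-cycles are already a closed subspace). -/
noncomputable def l2Cycles (Y : TwoComplex) : Submodule ℂ Y.L2Chains :=
  (Submodule.span ℂ Y.l2CycleSet).topologicalClosure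

instance (Y : TwoComplex) : Y.l2Cycles.HasOrthogonalProjection := by
  unfold l2Cycles
  infer_instance

open Classical in
/-- The unit vector of `ℓ²(Y.F)` belonging to the 2-cell `c`. -/
noncomputable def unitVector (Y : TwoComplex) (c : Y.F) : Y.L2Chains := lp.single 2 c (1 : ℂ)

/-- `⟨P δ, δ⟩ = ‖P δ‖²`, where `P` is the orthogonal projection onto the square-summable 2-cycles and
`δ` is the unit vector of the 2-cell `c`. -/
noncomputable def localDimension (Y : TwoComplex) (c : Y.F) : ℝ :=
  ‖Y.l2Cycles.starProjection (Y.unitVector c)‖ ^ 2

/-- `b` is the second L2 Betti number of (the compact complex) `X`: if `Y → X` is a universal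
covering with deck group `G` and `P` is the orthogonal projection of `ℓ²(Y.F)` onto the space of the
square-summable 2-cycles, which is the second reduced L2 homology of `Y`, then `b` is the von
Neumann dimension of this space over `G`, that is, the sum of `⟨P δ, δ⟩` over the 2-cells of `X`,
where `δ` is the unit vector of a 2-cell of `Y` over the given 2-cell of `X`. -/
def IsSecondL2Betti (X : TwoComplex) (b : ℝ) : Prop :=
  ∃ (Y : TwoComplex) (φ : Hom Y X), φ.IsUniversalCovering ∧
    ∃ s : X.F → Y.F, (∀ d, φ.f (s d) = d) ∧ b = ∑ᶠ d : X.F, Y.localDimension (s d)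

/-- `X` has non-positive immersions: for every combinatorial immersion `Y → X` with `Y` compact and
connected, either `χ(Y) ≤ 0` or `π₁(Y)` is trivial. -/
def NonPositiveImmersions (X : TwoComplex) : Prop :=
  ∀ (Y : TwoComplex) (φ : Hom Y X), φ.IsImmersion → Y.Compact → Y.Connected →
    Y.euler ≤ 0 ∨ Y.TrivialPi1

end TwoComplex

/-- The statement of the question: for every compact aspherical two-complex `X`, the complex `X` has
non-positive immersions if and only if its second L2 Betti number is zero. -/
def Question : Prop :=
  ∀ X : TwoComplex, X.Connected → X.Compact → X.Aspherical →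
    ∀ b : ℝ, X.IsSecondL2Betti b → (X.NonPositiveImmersions ↔ b = 0)

end Pool.Agent.ZH17.NPI
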