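import Pool.Agent.ZH17.NPI.Defs

set_option autoImplicit false

namespace Pool.Agent.ZH17.NPI

open TwoComplex

/-! ### Edge paths -/

section paths
variable {V E : Type} {src tgt : E → V}

theorem isEdgePath_append {u v w : V} {l l' : List (E × Bool)}
    (h : IsEdgePath src tgt u l v) (h' : IsEdgePath src tgt v l' w) :
    IsEdgePath src tgt u (l ++ l') w := by
  induction l generalizing u with
  | nil => have : u = v := h; subst this; exact h'
  | cons z l ih =>
    obtain ⟨e, s⟩ := z
    cases s
    · exact ⟨h.1, ih h.2⟩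
    · exact ⟨h.1, ih h.2⟩

theorem isEdgePath_unit {E : Type} {src tgt : E → Unit} (u v : Unit) (l : List (E × Bool)) :
    IsEdgePath src tgt u l v := by
  induction l generalizing u with
  | nil => exact rfl
  | cons z l ih =>
    obtain ⟨e, s⟩ := z
    cases s
    · exact ⟨rfl, ih _⟩
    · exact ⟨rfl, ih _⟩

end paths

/-! ### The sum of weights along a path -/

section weights

/-- the sum of the weights along a path -/
def wsum {E : Type} (wt : E → ℤ) (l : List (E × Bool)) : ℤ :=
  (l.map fun z => if z.2 then wt z.1 else - wt z.1).sum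

theorem wsum_append {E : Type} (wt : E → ℤ) (l l' : List (E × Bool)) :
    wsum wt (l ++ l') = wsum wt l + wsum wt l' := by
  simp [wsum]

theorem wsum_cons {E : Type} (wt : E → ℤ) (z : E × Bool) (l : List (E × Bool)) :
    wsum wt (z :: l) = (if z.2 then wt z.1 else - wt z.1) + wsum wt l := by
  simp [wsum]

theorem wsum_nil {E : Type} (wt : E → ℤ) : wsum wt [] = 0 := by
  simp [wsum]

variable {X : TwoComplex} (wt : X.E → ℤ)

theorem wsum_move (h : ∀ f, wsum wt (X.bd f) = 0) {l l' : List (X.E × Bool)}
    (hm : X.Move l l') : wsum wt l = wsum wt l' := by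
  cases hm with
  | back a b e s =>
    rw [wsum_append, wsum_append]
    cases s <;> simp [wsum]
  | face a b f =>
    rw [wsum_append, wsum_append, wsum_append, h f]
    simp

theorem wsum_homotopic (h : ∀ f, wsum wt (X.bd f) = 0) {u v : X.V} {l l' : List (X.E × Bool)}
    (hm : X.Homotopic u v l l') : wsum wt l = wsum wt l' := by
  induction hm with
  | rel l l' h' => exact wsum_move wt h h'.2.2
  | refl l => rfl
  | symm l l' _ ih => exact ih.symm
  | trans l l' l'' _ _ ih1 ih2 => exact ih1.trans ih2

end weights

/-! ### The complex of the presentation `⟨x, y | x y x = y x y, x⟩` -/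

/-- the relators: `x y x y⁻¹ x⁻¹ y⁻¹` and `x`, where `x` is `0` and `y` is `1` -/
def word : Fin 2 → List (Fin 2 × Bool)
  | 0 => [(0, true), (1, true), (0, true), (1, false), (0, false), (1, false)]
  | 1 => [(0, true)]

/-- the presentation complex -/
def X0 : TwoComplex where
  V := Unit
  E := Fin 2
  F := Fin 2
  src _ := ()
  tgt _ := ()
  bd := word
  bd_ne_nil f := by fin_cases f <;> simp [word]
  bd_closed f := ⟨(), isEdgePath_unit _ _ _⟩

instance : OfNat X0.E 0 := ⟨(0 : Fin 2)⟩
instance : OfNat X0.E 1 := ⟨(1 : Fin 2)⟩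

theorem X0_path (u v : X0.V) (l : List (X0.E × Bool)) : X0.IsPath u l v := isEdgePath_unit _ _ _

theorem X0_step {l l' : List (X0.E × Bool)} (h : X0.Move l l') : X0.Homotopic () () l l' :=
  Relation.EqvGen.rel _ _ ⟨X0_path _ _ _, X0_path _ _ _, h⟩

theorem X0_htp_append {l l' : List (X0.E × Bool)} (h : X0.Homotopic () () l l')
    (a b : List (X0.E × Bool)) : X0.Homotopic () () (a ++ l ++ b) (a ++ l' ++ b) := by
  induction h with
  | rel l l' h' =>
    apply X0_step
    cases h'.2.2 with
    | back c d e s =>
      have := Move.back (X := X0) (a ++ c) (d ++ b) e s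
      simpa [List.append_assoc] using this
    | face c d f =>
      have := Move.face (X := X0) (a ++ c) (d ++ b) f
      simpa [List.append_assoc] using this
  | refl l => exact Relation.EqvGen.refl _
  | symm l l' _ ih => exact Relation.EqvGen.symm _ _ ih
  | trans l l' l'' _ _ ih1 ih2 => exact Relation.EqvGen.trans _ _ _ ih1 ih2

theorem X0_trans {l l' l'' : List (X0.E × Bool)} (h : X0.Homotopic () () l l')
    (h' : X0.Homotopic () () l' l'') : X0.Homotopic () () l l'' := Relation.EqvGen.trans _ _ _ h h'

theorem X0_symm {l l' : List (X0.E × Bool)} (h : X0.Homotopic () () l l') :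
    X0.Homotopic () () l' l := Relation.EqvGen.symm _ _ h

/-- if `z` is trivial then so is its inverse -/
theorem X0_inv {e : X0.E} {s : Bool} (h : X0.Homotopic () () [(e, s)] []) :
    X0.Homotopic () () [(e, !s)] [] := by
  have h1 : X0.Homotopic () () ([(e, s)] ++ [(e, !s)]) [] :=
    X0_step (Move.back (X := X0) [] [] e s)
  have h2 := X0_htp_append h [] [(e, !s)]
  simp only [List.nil_append] at h2
  exact X0_trans (X0_symm h2) h1

/-- a trivial letter may be deleted -/
theorem X0_del {z : X0.E × Bool} (h : X0.Homotopic () () [z] []) (a b : List (X0.E × Bool)) :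
    X0.Homotopic () () (a ++ z :: b) (a ++ b) := by
  have := X0_htp_append h a b
  simpa [List.append_assoc] using this

theorem X0_x : X0.Homotopic () () [((0 : Fin 2), true)] [] := by
  have := X0_step (Move.face (X := X0) [] [] (1 : Fin 2))
  exact this

theorem X0_y' : X0.Homotopic () () [((1 : Fin 2), false)] [] := by
  have h0 := X0_x
  have h1 := X0_inv h0
  have hr : X0.Homotopic () () (word 0) [] := by
    have := X0_step (Move.face (X := X0) [] [] (0 : Fin 2))
    exact this
  -- delete the first `x`
  have a1 : X0.Homotopic () () (word 0)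
      [((1 : Fin 2), true), (0, true), (1, false), (0, false), (1, false)] :=
    X0_del h0 [] [((1 : Fin 2), true), (0, true), (1, false), (0, false), (1, false)]
  have a2 : X0.Homotopic () ()
      [((1 : Fin 2), true), (0, true), (1, false), (0, false), (1, false)]
      [((1 : Fin 2), true), (1, false), (0, false), (1, false)] :=
    X0_del h0 [((1 : Fin 2), true)] [((1 : Fin 2), false), (0, false), (1, false)]
  have a3 : X0.Homotopic () ()
      [((1 : Fin 2), true), (1, false), (0, false), (1, false)]
      [((0 : Fin 2), false), (1, false)] :=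
    X0_step (Move.back (X := X0) [] [((0 : Fin 2), false), (1, false)] (1 : Fin 2) true)
  have a4 : X0.Homotopic () () [((0 : Fin 2), false), (1, false)] [((1 : Fin 2), false)] :=
    X0_del h1 [] [((1 : Fin 2), false)]
  exact X0_trans (X0_symm (X0_trans a1 (X0_trans a2 (X0_trans a3 a4)))) hr

theorem X0_letter (z : X0.E × Bool) : X0.Homotopic () () [z] [] := by
  obtain ⟨e, s⟩ := z
  have key : ∀ (e : Fin 2) (s : Bool), X0.Homotopic () () [(e, s)] [] := by
    intro e s
    fin_cases e <;> cases s
    · exact X0_inv X0_x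
    · exact X0_x
    · exact X0_y'
    · exact X0_inv X0_y'
  exact key e s

theorem X0_trivialPi1 : X0.TrivialPi1 := by
  intro v l _
  obtain rfl : v = () := rfl
  induction l with
  | nil => exact Relation.EqvGen.refl _
  | cons z l ih =>
    refine X0_trans (X0_del (X0_letter z) [] l) ?_
    exact ih (X0_path _ _ _)

theorem X0_connected : X0.Connected := ⟨⟨()⟩, fun _ _ => ⟨[], X0_path _ _ _⟩⟩

theorem X0_compact : X0.Compact :=
  ⟨inferInstanceAs (Finite Unit), inferInstanceAs (Finite (Fin 2)), inferInstanceAs (Finite (Fin 2))⟩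

theorem inc_eq (f e : Fin 2) : X0.inc f e =
    ((word f).map fun z => if z.1 = e then (if z.2 then (1 : ℤ) else -1) else 0).sum := by
  unfold TwoComplex.inc
  congr 1
  apply List.map_congr_left
  intro z _
  by_cases h : z.1 = e
  · rw [if_pos h]
    exact (if_pos h).symm
  · rw [if_neg h]
    exact (if_neg h).symm

theorem inc00 : X0.inc (0 : Fin 2) (0 : Fin 2) = 1 := by rw [inc_eq]; decide

theorem inc01 : X0.inc (0 : Fin 2) (1 : Fin 2) = -1 := by rw [inc_eq]; decide

theorem inc10 : X0.inc (1 : Fin 2) (0 : Fin 2) = 1 := by rw [inc_eq]; decide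

theorem inc11 : X0.inc (1 : Fin 2) (1 : Fin 2) = 0 := by rw [inc_eq]; decide

instance : Fintype X0.F := inferInstanceAs (Fintype (Fin 2))

theorem X0_trivialH2 : X0.TrivialH2 := by
  intro c hc
  have hsum : ∀ e : Fin 2, (c.sum fun f n => n * X0.inc f e) =
      c (0 : Fin 2) * X0.inc (0 : Fin 2) e + c (1 : Fin 2) * X0.inc (1 : Fin 2) e := by
    intro e
    have h1 : (c.sum fun f n => n * X0.inc f e) = ∑ f : Fin 2, c f * X0.inc f e :=
      Finsupp.sum_fintype (α := Fin 2) c _ (fun f => by simp)
    rw [h1, Fin.sum_univ_two]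
  have h1 := hc (1 : Fin 2)
  have h0 := hc (0 : Fin 2)
  rw [hsum, inc01, inc11] at h1
  rw [hsum, inc00, inc10] at h0
  have e0 : c (0 : Fin 2) = 0 := by linarith
  have e1 : c (1 : Fin 2) = 0 := by linarith
  apply Finsupp.ext
  intro f
  have key : ∀ f : Fin 2, c f = 0 := by
    intro f
    fin_cases f
    · exact e0
    · exact e1
  exact key f

theorem X0_contractible : X0.Contractible := ⟨⟨X0_connected, X0_trivialPi1⟩, X0_trivialH2⟩

/-! ### The identity covering -/

/-- the identity -/
def idHom (X : TwoComplex) : Hom X X where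
  v := id
  e := id
  f := id
  src_comm _ := rfl
  tgt_comm _ := rfl
  bd_comm c := by simp

theorem X0_id_immersion : (idHom X0).IsImmersion :=
  ⟨fun _ _ _ h => h, fun _ _ _ h => h, fun _ _ h _ _ _ => h⟩

theorem X0_id_covering : (idHom X0).IsCovering :=
  ⟨X0_id_immersion, fun _ b _ => ⟨b, rfl, rfl⟩, fun _ b _ => ⟨b, rfl, rfl⟩,
    fun _ d _ => ⟨d, rfl, X0_path _ _ _⟩⟩

theorem X0_id_universal : (idHom X0).IsUniversalCovering :=
  ⟨X0_id_covering, X0_connected, X0_trivialPi1⟩

theorem X0_aspherical : X0.Aspherical := ⟨X0, idHom X0, X0_id_universal, X0_contractible⟩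

theorem X0_l2CycleSet : X0.l2CycleSet ⊆ (⊥ : Submodule ℂ X0.L2Chains) := by
  intro c hc
  have hsum : ∀ e : Fin 2, (∑' f, (X0.inc f e : ℂ) * c f) =
      (X0.inc (0 : Fin 2) e : ℂ) * c (0 : Fin 2) + (X0.inc (1 : Fin 2) e : ℂ) * c (1 : Fin 2) := by
    intro e
    have h1 : (∑' f, (X0.inc f e : ℂ) * c f) = ∑ f : Fin 2, (X0.inc f e : ℂ) * c f :=
      tsum_fintype (β := X0.F) _
    rw [h1, Fin.sum_univ_two]
  have h1 := hc (1 : Fin 2)
  have h0 := hc (0 : Fin 2)
  rw [hsum, inc01, inc11] at h1
  rw [hsum, inc00, inc10] at h0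
  have e0 : c (0 : Fin 2) = 0 := by
    push_cast at h1
    linear_combination -h1
  have e1 : c (1 : Fin 2) = 0 := by
    push_cast at h0
    rw [e0] at h0
    linear_combination h0
  show c = 0
  apply lp.ext
  funext f
  have key : ∀ f : Fin 2, c f = 0 := by
    intro f
    fin_cases f
    · exact e0
    · exact e1
  exact key f

theorem X0_l2Cycles : X0.l2Cycles = ⊥ := by
  unfold l2Cycles
  have h2 : Submodule.span ℂ X0.l2CycleSet = ⊥ := by
    rw [eq_bot_iff]
    exact Submodule.span_le.2 X0_l2CycleSet
  rw [h2, eq_bot_iff]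
  exact Submodule.topologicalClosure_minimal _ le_rfl isClosed_singleton

theorem X0_betti : X0.IsSecondL2Betti 0 := by
  refine ⟨X0, idHom X0, X0_id_universal, id, fun d => rfl, ?_⟩
  have h : ∀ x : X0.L2Chains, X0.l2Cycles.starProjection x = 0 := by
    intro x
    have h1 : X0.l2Cycles.starProjection x ∈ X0.l2Cycles := Submodule.starProjection_apply_mem _ _
    have h2 : X0.l2Cycles.starProjection x ∈ (⊥ : Submodule ℂ X0.L2Chains) :=
      X0_l2Cycles ▸ h1
    exact h2
  simp [h, localDimension]

/-! ### Complexes from permutations -/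

section perm
variable {Ω : Type} (ρ : Fin 2 → Equiv.Perm Ω)

/-- the end of the path from `v` that spells the word -/
def endp : Ω → List (Fin 2 × Bool) → Ω
  | v, [] => v
  | v, (a, true) :: l => endp (ρ a v) l
  | v, (a, false) :: l => endp ((ρ a).symm v) l

/-- the path from `v` that spells the word; the edge `(v, a)` goes from `v` to `ρ a v` -/
def lift : Ω → List (Fin 2 × Bool) → List ((Ω × Fin 2) × Bool)
  | _, [] => []
  | v, (a, true) :: l => ((v, a), true) :: lift (ρ a v) l
  | v, (a, false) :: l => (((ρ a).symm v, a), false) :: lift ((ρ a).symm v) l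

theorem lift_path (v : Ω) (l : List (Fin 2 × Bool)) :
    IsEdgePath (fun z : Ω × Fin 2 => z.1) (fun z => ρ z.2 z.1) v (lift ρ v l) (endp ρ v l) := by
  induction l generalizing v with
  | nil => exact rfl
  | cons z l ih =>
    obtain ⟨a, s⟩ := z
    cases s
    · exact ⟨by simp, ih _⟩
    · exact ⟨rfl, ih _⟩

theorem lift_map (v : Ω) (l : List (Fin 2 × Bool)) :
    (lift ρ v l).map (fun z => (z.1.2, z.2)) = l := by
  induction l generalizing v with
  | nil => rfl
  | cons z l ih =>
    obtain ⟨a, s⟩ := z
    cases s
    · simp [lift, ih]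
    · simp [lift, ih]

theorem lift_length (v : Ω) (l : List (Fin 2 × Bool)) : (lift ρ v l).length = l.length := by
  have := congrArg List.length (lift_map ρ v l)
  simpa using this

theorem lift_inj (v v' : Ω) (l : List (Fin 2 × Bool)) (i : ℕ) (hi : i < l.length)
    (h : (lift ρ v l)[i]? = (lift ρ v' l)[i]?) : v = v' := by
  induction l generalizing v v' i with
  | nil => simp at hi
  | cons z l ih =>
    obtain ⟨a, s⟩ := z
    cases s
    · cases i with
      | zero =>
        simp only [lift, List.getElem?_cons_zero, Option.some.injEq, Prod.mk.injEq, and_true,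
          EmbeddingLike.apply_eq_iff_eq] at h
        exact h
      | succ i =>
        have := ih ((ρ a).symm v) ((ρ a).symm v') i (by simpa using hi) (by simpa [lift] using h)
        simpa using this
    · cases i with
      | zero =>
        simp only [lift, List.getElem?_cons_zero, Option.some.injEq, Prod.mk.injEq, and_true] at h
        exact h
      | succ i =>
        have := ih (ρ a v) (ρ a v') i (by simpa using hi) (by simpa [lift] using h)
        simpa using this

/-- the complex with vertices `Ω`, an edge from `v` to `ρ a v` for each letter `a`, and 2-cells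
attached along lifts of relators -/
def permCx {F : Type} (lab : F → Fin 2) (base : F → Ω)
    (hb : ∀ f, endp ρ (base f) (word (lab f)) = base f) : TwoComplex where
  V := Ω
  E := Ω × Fin 2
  F := F
  src z := z.1
  tgt z := ρ z.2 z.1
  bd f := lift ρ (base f) (word (lab f))
  bd_ne_nil f := by
    intro h
    have h1 := congrArg List.length h
    rw [lift_length] at h1
    have : ∀ i : Fin 2, (word i).length ≠ 0 := by decide
    exact this _ h1
  bd_closed f := ⟨base f, by
    have := lift_path ρ (base f) (word (lab f))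
    rwa [hb f] at this⟩

variable {F : Type} (lab : F → Fin 2) (base : F → Ω)
    (hb : ∀ f, endp ρ (base f) (word (lab f)) = base f)

/-- the map to the presentation complex -/
def permHom : Hom (permCx ρ lab base hb) X0 where
  v _ := ()
  e z := z.2
  f := lab
  src_comm _ := rfl
  tgt_comm _ := rfl
  bd_comm c := (lift_map ρ (base c) (word (lab c))).symm

theorem permHom_immersion (hinj : ∀ f g, lab f = lab g → base f = base g → f = g) :
    (permHom ρ lab base hb).IsImmersion := by
  refine ⟨?_, ?_, ?_⟩
  · rintro ⟨v, a⟩ ⟨v', a'⟩ h1 h2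
    exact Prod.ext h1 h2
  · rintro ⟨v, a⟩ ⟨v', a'⟩ h1 h2
    obtain rfl : a = a' := h2
    have h3 : ρ a v = ρ a v' := h1
    rw [(ρ a).injective h3]
  · intro c d h1 i hi h2
    have h1' : lab c = lab d := h1
    have h2' : (lift ρ (base c) (word (lab c)))[i]? = (lift ρ (base d) (word (lab d)))[i]? := h2
    have hi' : i < (word (lab c)).length := by
      rw [← lift_length ρ (base c)]
      exact hi
    rw [← h1'] at h2'
    exact hinj c d h1' (lift_inj ρ _ _ _ i hi' h2')

end perm

/-! ### The immersed complexes -/

section cover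
variable (n : ℕ)

/-- the vertices: `(k, i)` with `k` in `{0, 1, 2}` and `i` modulo `n` -/
abbrev Om : Type := Fin 3 × ZMod n

/-- `x` exchanges `0` and `1`, `y` exchanges `1` and `2`, with a shift on one of the two edges -/
def act : Fin 2 → Equiv.Perm (Om n)
  | 0 => {
      toFun := fun p => match p with
        | (0, i) => (1, i)
        | (1, i) => (0, i + 1)
        | (2, i) => (2, i)
      invFun := fun p => match p with
        | (1, i) => (0, i)
        | (0, i) => (1, i - 1)
        | (2, i) => (2, i)
      left_inv := by rintro ⟨k, i⟩; fin_cases k <;> simp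
      right_inv := by rintro ⟨k, i⟩; fin_cases k <;> simp }
  | 1 => {
      toFun := fun p => match p with
        | (0, i) => (0, i)
        | (1, i) => (2, i)
        | (2, i) => (1, i + 1)
      invFun := fun p => match p with
        | (0, i) => (0, i)
        | (2, i) => (1, i)
        | (1, i) => (2, i - 1)
      left_inv := by rintro ⟨k, i⟩; fin_cases k <;> simp
      right_inv := by rintro ⟨k, i⟩; fin_cases k <;> simp }

/-- the labels of the 2-cells -/
def lab : Om n ⊕ ZMod n → Fin 2
  | Sum.inl _ => 0
  | Sum.inr _ => 1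

/-- the base points of the 2-cells -/
def base : Om n ⊕ ZMod n → Om n
  | Sum.inl p => p
  | Sum.inr i => (2, i)

theorem base_closed (f : Om n ⊕ ZMod n) : endp (act n) (base n f) (word (lab n f)) = base n f := by
  rcases f with ⟨k, i⟩ | i
  · fin_cases k <;> simp [lab, base, word, endp, act]
  · simp [lab, base, word, endp, act]

/-- the immersed complex -/
def Yn : TwoComplex := permCx (act n) (lab n) (base n) (base_closed n)

/-- the immersion -/
def phin : Hom (Yn n) X0 := permHom (act n) (lab n) (base n) (base_closed n)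

theorem phin_immersion : (phin n).IsImmersion := by
  apply permHom_immersion
  rintro (p | i) (q | j) h1 h2
  · exact congrArg Sum.inl h2
  · simp [lab] at h1
  · simp [lab] at h1
  · have : i = j := congrArg Prod.snd h2
    rw [this]

/-- the weights: the edges with a shift have weight one -/
def wt : Om n × Fin 2 → ℤ
  | ((1, _), 0) => 1
  | ((2, _), 1) => 1
  | _ => 0

theorem wt_cell (f : Om n ⊕ ZMod n) :
    wsum (wt n) (lift (act n) (base n f) (word (lab n f))) = 0 := by
  rcases f with ⟨k, i⟩ | i
  · fin_cases k <;> simp [lab, base, word, lift, act, wsum_cons, wsum_nil, wt]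
  · simp [lab, base, word, lift, wsum_cons, wsum_nil, wt]

variable [NeZero n]

theorem Yn_compact : (Yn n).Compact :=
  ⟨inferInstanceAs (Finite (Om n)), inferInstanceAs (Finite (Om n × Fin 2)),
    inferInstanceAs (Finite (Om n ⊕ ZMod n))⟩

theorem Yn_euler : (Yn n).euler = n := by
  have h1 : Nat.card (Yn n).V = 3 * n := by
    show Nat.card (Fin 3 × ZMod n) = 3 * n
    rw [Nat.card_prod, Nat.card_zmod, Nat.card_fin]
  have h2 : Nat.card (Yn n).E = 3 * n * 2 := by
    show Nat.card ((Fin 3 × ZMod n) × Fin 2) = 3 * n * 2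
    rw [Nat.card_prod, Nat.card_prod, Nat.card_zmod, Nat.card_fin, Nat.card_fin]
  have h3 : Nat.card (Yn n).F = 3 * n + n := by
    show Nat.card ((Fin 3 × ZMod n) ⊕ ZMod n) = 3 * n + n
    rw [Nat.card_sum, Nat.card_prod, Nat.card_zmod, Nat.card_fin]
  unfold TwoComplex.euler
  rw [h1, h2, h3]
  push_cast
  ring

/-- `v` can be reached from `u` -/
def Reach (u v : Om n) : Prop := ∃ l, (Yn n).IsPath u l v

omit [NeZero n] in
theorem Reach.trans {u v w : Om n} (h : Reach n u v) (h' : Reach n v w) : Reach n u w := by
  obtain ⟨l, hl⟩ := h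
  obtain ⟨l', hl'⟩ := h'
  exact ⟨l ++ l', isEdgePath_append hl hl'⟩

omit [NeZero n] in
theorem reach_act (a : Fin 2) (u : Om n) : Reach n u (act n a u) :=
  ⟨[((u, a), true)], rfl, rfl⟩

omit [NeZero n] in
theorem reach_act' (a : Fin 2) (u : Om n) : Reach n (act n a u) u :=
  ⟨[((u, a), false)], rfl, rfl⟩

/-- the path that goes around -/
def around (i : ZMod n) : ℕ → List ((Om n × Fin 2) × Bool)
  | 0 => []
  | k + 1 => (((0, i), 0), true) :: (((1, i), 0), true) :: around (i + 1) k

omit [NeZero n] in
theorem around_path (k : ℕ) (i : ZMod n) : (Yn n).IsPath (0, i) (around n i k) (0, i + k) := by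
  induction k generalizing i with
  | zero => show ((0 : Fin 3), i) = (0, i + ((0 : ℕ) : ZMod n)); simp
  | succ k ih =>
    refine ⟨rfl, rfl, ?_⟩
    have h := ih (i + 1)
    have e : i + 1 + (k : ZMod n) = i + ((k + 1 : ℕ) : ZMod n) := by push_cast; ring
    rw [e] at h
    exact h

omit [NeZero n] in
theorem around_wt (k : ℕ) (i : ZMod n) : wsum (wt n) (around n i k) = k := by
  induction k generalizing i with
  | zero => simp [around, wsum_nil]
  | succ k ih =>
    have h := ih (i + 1)
    rw [around, wsum_cons, wsum_cons, h]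
    simp [wt]
    ring

theorem reach_zero (i : ZMod n) : Reach n (0, 0) (0, i) := by
  refine ⟨around n 0 i.val, ?_⟩
  have h := around_path n i.val 0
  rw [ZMod.natCast_val, ZMod.cast_id, zero_add] at h
  exact h

theorem reach_from (u : Om n) : Reach n (0, 0) u := by
  obtain ⟨k, i⟩ := u
  have h0 := reach_zero n i
  have h1 : Reach n (0, i) (1, i) := reach_act n 0 (0, i)
  have h2 : Reach n (1, i) (2, i) := reach_act n 1 (1, i)
  fin_cases k
  · exact h0
  · exact h0.trans n h1
  · exact (h0.trans n h1).trans n h2

theorem reach_to (u : Om n) : Reach n u (0, 0) := by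
  obtain ⟨k, i⟩ := u
  have h0 : Reach n (0, i) (0, 0) := by
    refine ⟨around n i (-i).val, ?_⟩
    have h := around_path n (-i).val i
    rw [ZMod.natCast_val, ZMod.cast_id, add_neg_cancel] at h
    exact h
  have h1 : Reach n (1, i) (0, i) := reach_act' n 0 (0, i)
  have h2 : Reach n (2, i) (1, i) := reach_act' n 1 (1, i)
  fin_cases k
  · exact h0
  · exact h1.trans n h0
  · exact (h2.trans n h1).trans n h0

theorem Yn_connected : (Yn n).Connected :=
  ⟨⟨((0, 0) : Om n)⟩, fun u v => (reach_to n u).trans n (reach_from n v)⟩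

theorem Yn_not_trivial : ¬ (Yn n).TrivialPi1 := by
  intro h
  have h1 : (Yn n).IsPath ((0, 0) : Om n) (around n 0 n) ((0, 0) : Om n) := by
    have := around_path n n 0
    rw [ZMod.natCast_self, add_zero] at this
    exact this
  have h2 := wsum_homotopic (X := Yn n) (wt n) (wt_cell n) (h _ _ h1)
  have h3 : (n : ℤ) = 0 := (around_wt n n 0).symm.trans h2
  have h4 : n ≠ 0 := NeZero.ne n
  omega

end cover

theorem X0_not_npi : ¬ X0.NonPositiveImmersions := by
  intro h
  rcases h (Yn 1) (phin 1) (phin_immersion 1) (Yn_compact 1) (Yn_connected 1) with h1 | h1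
  · rw [Yn_euler] at h1
    norm_num at h1
  · exact Yn_not_trivial 1 h1

end Pool.Agent.ZH17.NPI
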